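import Mathlib

/-!
# Initial sums of the divisors `> 1`

The definitions of problem MP_d49c4f_nt.
-/

namespace Pool.Agent.KS6_57.DS

/-- The set `D_n` of the initial sums `d_1 + ... + d_j` of the increasing sequence
`1 < d_1 < d_2 < ... < d_k = n` of the divisors of `n` which exceed `1` (`t` is the last summand). -/
def D (n : ℕ) : Set ℕ :=
  {N | ∃ t ∈ n.divisors, 1 < t ∧ N = ∑ d ∈ n.divisors.filter (fun d => 1 < d ∧ d ≤ t), d}

/-- `N` is an initial divisor sum of some `n`. -/
def Representable (N : ℕ) : Prop := ∃ n, N ∈ D n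

/-- The least `n` with `N ∈ D_n` (for representable `N`). -/
noncomputable def f (N : ℕ) : ℕ := sInf {n | N ∈ D n}

/-- The number of the representable `N ≤ x` with `f N ≤ ε N`. -/
noncomputable def count (ε : ℝ) (x : ℕ) : ℕ :=
  {N : ℕ | 1 ≤ N ∧ N ≤ x ∧ Representable N ∧ (f N : ℝ) ≤ ε * N}.ncard

/-- Natural density zero. -/
def DensityZero (E : Set ℕ) : Prop :=
  Filter.Tendsto (fun x : ℕ => ((E ∩ Set.Icc 1 x).ncard : ℝ) / x) Filter.atTop (nhds 0)

end Pool.Agent.KS6_57.DS
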