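import Mathlib
import Pool.Agent.KS6_57.MT3.E

namespace Pool.Agent.KS6_57.DS

open Finset Filter Topology

/-- `∑_{j ∣ n} j ^ (-s)` -/
noncomputable def sg (s : ℝ) (n : ℕ) : ℝ := ∑ j ∈ n.divisors, (j : ℝ) ^ (-s)

lemma sg_nonneg (s : ℝ) (n : ℕ) : 0 ≤ sg s n :=
  Finset.sum_nonneg fun _ _ => by positivity

/-- completely multiplicative function `n ↦ n ^ (-s)` -/
noncomputable def fs (s : ℝ) (hs : 0 < s) : ℕ →*₀ ℝ where
  toFun n := (n : ℝ) ^ (-s)
  map_zero' := by simp [Real.zero_rpow (neg_ne_zero.2 hs.ne')]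
  map_one' := by simp
  map_mul' a b := by push_cast; exact Real.mul_rpow (by positivity) (by positivity)

lemma prime_pow_lt {s : ℝ} (hs : 0 < s) {p : ℕ} (hp : p.Prime) : (p : ℝ) ^ (-s) < 1 :=
  Real.rpow_lt_one_of_one_lt_of_neg (by exact_mod_cast hp.one_lt) (by linarith)

lemma sg_le {s : ℝ} (hs : 0 < s) {n : ℕ} (hn : n ≠ 0) :
    sg s n ≤ ∏ p ∈ n.primeFactors, (1 - (p : ℝ) ^ (-s))⁻¹ := by
  have h := EulerProduct.summable_and_hasSum_factoredNumbers_prod_filter_prime_geometric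
    (f := (fs s hs : ℕ →* ℝ)) (fun {p} hp => by
      change ‖(p : ℝ) ^ (-s)‖ < 1
      rw [Real.norm_of_nonneg (by positivity)]
      exact prime_pow_lt hs hp) n.primeFactors
  obtain ⟨h1, h2⟩ := h
  have h3 : (n.primeFactors.filter Nat.Prime) = n.primeFactors := by
    refine Finset.filter_true_of_mem fun p hp => Nat.prime_of_mem_primeFactors hp
  rw [h3] at h2
  have h4 : ∏ p ∈ n.primeFactors, (1 - (p : ℝ) ^ (-s))⁻¹ =
      ∏ p ∈ n.primeFactors, (1 - (fs s hs : ℕ →* ℝ) p)⁻¹ := rfl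
  rw [h4, ← h2.tsum_eq]
  have hmem : ∀ j ∈ n.divisors, j ∈ Nat.factoredNumbers n.primeFactors := by
    intro j hj
    rw [Nat.mem_factoredNumbers_iff_primeFactors_subset]
    have hj' := Nat.mem_divisors.1 hj
    exact ⟨fun h => by subst h; exact hn (Nat.eq_zero_of_zero_dvd hj'.1), Nat.primeFactors_mono hj'.1 hn⟩
  have h5 : sg s n = ∑ x ∈ n.divisors.subtype (fun j => j ∈ Nat.factoredNumbers n.primeFactors),
      (fs s hs : ℕ →* ℝ) x := by
    rw [Finset.sum_subtype_of_mem (fun j : ℕ => (fs s hs : ℕ →* ℝ) j) hmem]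
    rfl
  rw [h5]
  refine Summable.sum_le_tsum _ (fun x _ => ?_) h2.summable
  change 0 ≤ ((x : ℕ) : ℝ) ^ (-s)
  positivity

/-- mean values of strongly multiplicative functions -/
lemma mean_le (h : ℕ → ℝ) (h0 : ∀ p, 0 ≤ h p) (y : ℕ) :
    ∑ n ∈ Icc 1 y, ∏ p ∈ n.primeFactors, (1 + h p) ≤
      y * ∏ p ∈ (Icc 1 y).filter Nat.Prime, (1 + h p / p) := by
  classical
  set P := (Icc 1 y).filter Nat.Prime with hP
  have h1 : ∀ n ∈ Icc 1 y, ∏ p ∈ n.primeFactors, (1 + h p) =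
      ∑ S ∈ P.powerset, if (∏ p ∈ S, p) ∣ n then ∏ p ∈ S, h p else 0 := by
    intro n hn
    have hn1 := Finset.mem_Icc.1 hn
    rw [Finset.prod_one_add, ← Finset.sum_filter]
    refine Finset.sum_congr ?_ fun _ _ => rfl
    ext S
    simp only [Finset.mem_powerset, Finset.mem_filter]
    constructor
    · intro hS
      refine ⟨fun p hp => ?_, ?_⟩
      · have := hS hp
        have hp' := Nat.prime_of_mem_primeFactors this
        have hd := Nat.dvd_of_mem_primeFactors this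
        rw [hP, Finset.mem_filter, Finset.mem_Icc]
        exact ⟨⟨hp'.one_lt.le, (Nat.le_of_dvd (by omega) hd).trans hn1.2⟩, hp'⟩
      · exact (Finset.prod_dvd_prod_of_subset _ _ _ hS).trans (Nat.prod_primeFactors_dvd n)
    · rintro ⟨hS, hd⟩ p hp
      rw [Nat.mem_primeFactors]
      have hp' := (Finset.mem_filter.1 (hS hp)).2
      exact ⟨hp', (Finset.dvd_prod_of_mem _ hp).trans hd, by omega⟩
  rw [Finset.sum_congr rfl h1, Finset.sum_comm, Finset.prod_one_add, Finset.mul_sum]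
  refine Finset.sum_le_sum fun S hS => ?_
  rw [← Finset.sum_filter, Finset.sum_const, nsmul_eq_mul, Finset.prod_div_distrib]
  have hSp : ∀ p ∈ S, p.Prime := fun p hp => (Finset.mem_filter.1 (Finset.mem_powerset.1 hS hp)).2
  have hpos : 0 < ∏ p ∈ S, p := Finset.prod_pos fun p hp => (hSp p hp).pos
  have hcard : (((Icc 1 y).filter fun n => (∏ p ∈ S, p) ∣ n).card : ℝ) ≤ y / ((∏ p ∈ S, p : ℕ) : ℝ) := by
    have : ((Icc 1 y).filter fun n => (∏ p ∈ S, p) ∣ n).card = y / ∏ p ∈ S, p := by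
      have := Nat.Ioc_filter_dvd_card_eq_div y (∏ p ∈ S, p)
      rw [← this]
      rfl
    rw [this]
    exact Nat.cast_div_le
  have h0' : 0 ≤ ∏ p ∈ S, h p := Finset.prod_nonneg fun p _ => h0 p
  calc _ ≤ (y / ((∏ p ∈ S, p : ℕ) : ℝ)) * ∏ p ∈ S, h p := mul_le_mul_of_nonneg_right hcard h0'
    _ = _ := by
      rw [Nat.cast_prod]
      ring

/-- the exponent -/
noncomputable def ss (u : ℕ) : ℝ := 1 - 2 / (u : ℝ)

lemma small_prime {u : ℕ} (hu : 8 * Real.log u ≤ u) (hu1 : 1 ≤ u) {p : ℕ} (hp : p.Prime) (hpu : p ≤ u) :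
    (1 - (p : ℝ) ^ (-(ss u)))⁻¹ ≤
      (1 - (p : ℝ)⁻¹)⁻¹ * Real.exp (16 * (Real.log u / u) * (1 / p)) := by
  have hu0 : (0 : ℝ) < u := by exact_mod_cast hu1
  have hp0 : (0 : ℝ) < p := by exact_mod_cast hp.pos
  have hp2 : (2 : ℝ) ≤ p := by exact_mod_cast hp.two_le
  have hlp : 0 ≤ Real.log p := Real.log_nonneg (by linarith)
  have hlu : Real.log p ≤ Real.log u := Real.log_le_log hp0 (by exact_mod_cast hpu)
  set x : ℝ := 2 / u * Real.log p with hx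
  have hx0 : 0 ≤ x := by positivity
  have hx1 : x ≤ 2 * (Real.log u / u) := by
    rw [hx]
    have : 2 / (u : ℝ) * Real.log p ≤ 2 / (u : ℝ) * Real.log u :=
      mul_le_mul_of_nonneg_left hlu (by positivity)
    calc _ ≤ _ := this
      _ = _ := by ring
  have hL : Real.log u / u ≤ 1 / 8 := by
    rw [div_le_iff₀ hu0]; linarith
  have hx2 : x ≤ 1 / 4 := by linarith
  have hexp : Real.exp x ≤ 1 + 2 * x := by
    have := Real.abs_exp_sub_one_le (x := x) (by rw [abs_of_nonneg hx0]; linarith)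
    rw [abs_of_nonneg hx0] at this
    linarith [le_abs_self (Real.exp x - 1)]
  have hps : (p : ℝ) ^ (-(ss u)) = (p : ℝ)⁻¹ * Real.exp x := by
    rw [hx, ss, neg_sub, sub_eq_add_neg, add_comm, Real.rpow_add hp0, Real.rpow_neg_one,
      Real.rpow_def_of_pos hp0 (2 / (u : ℝ)), mul_comm (Real.log (p : ℝ))]
  have hpi : (p : ℝ)⁻¹ ≤ 1 / 2 := by rw [inv_le_comm₀ hp0 (by norm_num)]; linarith
  have hpi0 : 0 < (p : ℝ)⁻¹ := by positivity
  set L : ℝ := Real.log u / u with hLdef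
  have hL0 : 0 ≤ L := by
    have : 0 ≤ Real.log u := hlp.trans hlu
    positivity
  have hup : (p : ℝ) ^ (-(ss u)) ≤ (p : ℝ)⁻¹ * (1 + 4 * L) := by
    rw [hps]
    exact mul_le_mul_of_nonneg_left (by linarith) hpi0.le
  have hden : 1 / 4 ≤ 1 - (p : ℝ) ^ (-(ss u)) := by nlinarith
  have hden1 : 0 < 1 - (p : ℝ)⁻¹ := by linarith
  rw [inv_le_iff_one_le_mul₀ (by linarith)]
  have h1 : 1 + 16 * L * (1 / p) ≤ Real.exp (16 * L * (1 / p)) := by
    linarith [Real.add_one_le_exp (16 * L * (1 / (p : ℝ)))]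
  have h2 : (1 : ℝ) ≤ (1 - (p : ℝ)⁻¹)⁻¹ * (1 + 16 * L * (1 / p)) * (1 - (p : ℝ) ^ (-(ss u))) := by
    rw [mul_assoc, mul_comm, ← div_eq_mul_inv, le_div_iff₀ hden1, one_mul]
    have h3 : 1 - (p : ℝ)⁻¹ * (1 + 4 * L) ≤ 1 - (p : ℝ) ^ (-(ss u)) := by linarith
    have h5 : (0 : ℝ) ≤ 16 * L * (1 / p) := by positivity
    have h6 : 1 / 4 * (16 * L * (1 / p)) ≤ (1 - (p : ℝ) ^ (-(ss u))) * (16 * L * (1 / p)) :=
      mul_le_mul_of_nonneg_right hden h5
    have h7 : (1 : ℝ) / p = (p : ℝ)⁻¹ := one_div _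
    rw [h7] at h6 ⊢
    nlinarith
  calc (1 : ℝ) ≤ _ := h2
    _ ≤ _ := by
      refine mul_le_mul_of_nonneg_right ?_ (by linarith)
      exact mul_le_mul_of_nonneg_left h1 (by positivity)

lemma inv_one_sub_le {x : ℝ} (h0 : 0 ≤ x) (h1 : x ≤ 1 / 2) : (1 - x)⁻¹ ≤ Real.exp (2 * x) := by
  have h2 : 0 < 1 - x := by linarith
  have h3 : 1 - 2 * x ≤ Real.exp (-(2 * x)) := by linarith [Real.add_one_le_exp (-(2 * x))]
  rw [inv_le_iff_one_le_mul₀ h2]
  have h4 : 1 + 2 * x ≤ Real.exp (2 * x) := by linarith [Real.add_one_le_exp (2 * x)]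
  nlinarith

lemma large_prime {u : ℕ} (hu : 8 * Real.log u ≤ u) (hu1 : 8 ≤ u) {p : ℕ} (hpu : u < p) :
    (((1 - (p : ℝ) ^ (-(ss u)))⁻¹) ^ u - 1) / p ≤
      2 * Real.exp 6 * (u : ℝ) ^ (1 / 2 : ℝ) * (1 / (p : ℝ) ^ (5 / 4 : ℝ)) := by
  have hu0 : (0 : ℝ) < u := by
    have : (8 : ℝ) ≤ u := by exact_mod_cast hu1
    linarith
  have hu8 : (8 : ℝ) ≤ u := by exact_mod_cast hu1
  have hpu' : (u : ℝ) < p := by exact_mod_cast hpu
  have hp0 : (0 : ℝ) < p := by linarith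
  have hs : 3 / 4 ≤ ss u := by
    rw [ss]
    have : 2 / (u : ℝ) ≤ 1 / 4 := by rw [div_le_iff₀ hu0]; linarith
    linarith
  have hs1 : ss u ≤ 1 := by
    rw [ss]
    have : 0 < 2 / (u : ℝ) := by positivity
    linarith
  set q : ℝ := (p : ℝ) ^ (-(ss u)) with hq
  have hq0 : 0 < q := Real.rpow_pos_of_pos hp0 _
  have hqu : q ≤ (u : ℝ) ^ (-(ss u)) :=
    Real.rpow_le_rpow_of_nonpos hu0 hpu'.le (by linarith)
  have hlog0 : 0 ≤ Real.log u := Real.log_nonneg (by linarith)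
  have huu : (u : ℝ) * (u : ℝ) ^ (-(ss u)) ≤ 3 := by
    have h1 : (u : ℝ) * (u : ℝ) ^ (-(ss u)) = Real.exp (Real.log u * (2 / u)) := by
      rw [← Real.rpow_def_of_pos hu0, ss]
      conv_lhs => rw [← Real.rpow_one (u : ℝ)]
      rw [← Real.rpow_mul hu0.le, one_mul, ← Real.rpow_add hu0]
      congr 1
      simp
    rw [h1]
    have h2 : Real.log u * (2 / u) ≤ 1 := by
      rw [mul_div_assoc', div_le_iff₀ hu0]; linarith
    calc _ ≤ Real.exp 1 := Real.exp_le_exp.2 h2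
      _ ≤ 3 := by linarith [Real.exp_one_lt_d9]
  have huq : (u : ℝ) * q ≤ 3 := (mul_le_mul_of_nonneg_left hqu hu0.le).trans huu
  have hqhalf : q ≤ 1 / 2 := by nlinarith
  have h3 : ((1 - q)⁻¹) ^ u ≤ Real.exp (2 * (u * q)) := by
    calc ((1 - q)⁻¹) ^ u ≤ (Real.exp (2 * q)) ^ u :=
          pow_le_pow_left₀ (inv_nonneg.2 (by linarith)) (inv_one_sub_le hq0.le hqhalf) u
      _ = Real.exp (2 * (u * q)) := by rw [← Real.exp_nat_mul]; ring_nf
  have h4 : Real.exp (2 * (u * q)) - 1 ≤ 2 * (u * q) * Real.exp 6 := by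
    set t : ℝ := 2 * (u * q) with ht
    have ht0 : 0 ≤ t := by positivity
    have ht6 : t ≤ 6 := by linarith
    have h5 : 1 - t ≤ Real.exp (-t) := by linarith [Real.add_one_le_exp (-t)]
    have h6 : Real.exp t * Real.exp (-t) = 1 := by rw [← Real.exp_add]; simp
    have h7 : Real.exp t - 1 ≤ t * Real.exp t := by
      have := mul_le_mul_of_nonneg_left h5 (Real.exp_pos t).le
      nlinarith
    exact h7.trans (mul_le_mul_of_nonneg_left (Real.exp_le_exp.2 ht6) ht0)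
  have h8 : q / p ≤ (u : ℝ) ^ (-(1 / 2) : ℝ) * (1 / (p : ℝ) ^ (5 / 4 : ℝ)) := by
    have e1 : q / p = (p : ℝ) ^ (-(ss u) - 1) := by
      rw [Real.rpow_sub hp0, Real.rpow_one]
    rw [e1, show (1 : ℝ) / (p : ℝ) ^ (5 / 4 : ℝ) = (p : ℝ) ^ (-(5 / 4) : ℝ) by
      rw [Real.rpow_neg hp0.le, one_div]]
    calc (p : ℝ) ^ (-(ss u) - 1) ≤ (p : ℝ) ^ (-(1 / 2) + -(5 / 4) : ℝ) := by
          refine Real.rpow_le_rpow_of_exponent_le (by linarith) ?_
          linarith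
      _ = (p : ℝ) ^ (-(1 / 2) : ℝ) * (p : ℝ) ^ (-(5 / 4) : ℝ) := Real.rpow_add hp0 _ _
      _ ≤ _ := by
          refine mul_le_mul_of_nonneg_right ?_ (by positivity)
          exact Real.rpow_le_rpow_of_nonpos hu0 hpu'.le (by norm_num)
  calc (((1 - q)⁻¹) ^ u - 1) / p ≤ (2 * (u * q) * Real.exp 6) / p := by
        refine div_le_div_of_nonneg_right ?_ hp0.le
        linarith
    _ = 2 * Real.exp 6 * u * (q / p) := by ring
    _ ≤ 2 * Real.exp 6 * u * ((u : ℝ) ^ (-(1 / 2) : ℝ) * (1 / (p : ℝ) ^ (5 / 4 : ℝ))) :=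
        mul_le_mul_of_nonneg_left h8 (by positivity)
    _ = _ := by
        have : (u : ℝ) * (u : ℝ) ^ (-(1 / 2) : ℝ) = (u : ℝ) ^ (1 / 2 : ℝ) := by
          conv_lhs => rw [← Real.rpow_one (u : ℝ)]
          rw [← Real.rpow_mul hu0.le, one_mul, ← Real.rpow_add hu0]
          congr 1; norm_num
        rw [← this]; ring

end Pool.Agent.KS6_57.DS
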