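import Mathlib
import Pool.Agent.KS6_57.DS.Moment

namespace Pool.Agent.KS6_57.DS

open Finset Filter Topology

/-- the sum `∑ m ^ (-5/4)` -/
noncomputable def S54 : ℝ := ∑' m : ℕ, 1 / (m : ℝ) ^ (5 / 4 : ℝ)

lemma summable54 : Summable (fun m : ℕ => 1 / (m : ℝ) ^ (5 / 4 : ℝ)) :=
  Real.summable_one_div_nat_rpow.2 (by norm_num)

lemma S54_nonneg : 0 ≤ S54 := tsum_nonneg fun _ => by positivity

/-- the product over the primes up to `N` -/
noncomputable def MP (N : ℕ) : ℝ := ∏ p ∈ (Icc 1 N).filter Nat.Prime, (1 - (p : ℝ)⁻¹)⁻¹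

noncomputable def hh (u p : ℕ) : ℝ := ((1 - (p : ℝ) ^ (-(ss u)))⁻¹) ^ u - 1

lemma ss_pos {u : ℕ} (hu : 8 ≤ u) : 0 < ss u := by
  have hu8 : (8 : ℝ) ≤ u := by exact_mod_cast hu
  rw [ss]
  have : 2 / (u : ℝ) ≤ 1 / 4 := by rw [div_le_iff₀ (by linarith)]; linarith
  linarith

lemma hh_nonneg {u : ℕ} (hu : 8 ≤ u) {p : ℕ} (hp : p.Prime) : 0 ≤ hh u p := by
  have h1 := prime_pow_lt (ss_pos hu) hp
  have h2 : 0 ≤ (p : ℝ) ^ (-(ss u)) := by positivity
  have h3 : 1 ≤ (1 - (p : ℝ) ^ (-(ss u)))⁻¹ := by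
    rw [one_le_inv₀ (by linarith)]; linarith
  have := one_le_pow₀ (n := u) h3
  rw [hh]; linarith

lemma prod_le_aux {u : ℕ} (hu : 8 * Real.log u ≤ u) (hu1 : 8 ≤ u) (y : ℕ) :
    ∏ p ∈ (Icc 1 y).filter Nat.Prime, (1 + hh u p / p) ≤
      (MP u) ^ u * Real.exp (16 * Real.log u * (1 + Real.log u) +
        2 * Real.exp 6 * (u : ℝ) ^ (1 / 2 : ℝ) * S54) := by
  classical
  have hu8 : (8 : ℝ) ≤ u := by exact_mod_cast hu1
  have hu0 : (0 : ℝ) < u := by linarith
  have hlog0 : 0 ≤ Real.log u := Real.log_nonneg (by linarith)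
  set P := (Icc 1 y).filter Nat.Prime with hP
  set A := (Icc 1 u).filter Nat.Prime with hA
  have hPp : ∀ p ∈ P, p.Prime := fun p hp => (Finset.mem_filter.1 hp).2
  have hAp : ∀ p ∈ A, p.Prime := fun p hp => (Finset.mem_filter.1 hp).2
  rw [← Finset.prod_filter_mul_prod_filter_not P (fun p => p ≤ u)]
  -- small primes
  have h1 : ∏ p ∈ P.filter (fun p => p ≤ u), (1 + hh u p / p) ≤
      ∏ p ∈ A, ((1 - (p : ℝ) ^ (-(ss u)))⁻¹) ^ u := by
    have hsub : P.filter (fun p => p ≤ u) ⊆ A := by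
      intro p hp
      simp only [hP, hA, Finset.mem_filter, Finset.mem_Icc] at hp ⊢
      exact ⟨⟨hp.1.1.1, hp.2⟩, hp.1.2⟩
    rw [← Finset.prod_sdiff hsub]
    have h2 : ∏ p ∈ P.filter (fun p => p ≤ u), (1 + hh u p / p) ≤
        ∏ p ∈ P.filter (fun p => p ≤ u), ((1 - (p : ℝ) ^ (-(ss u)))⁻¹) ^ u := by
      refine Finset.prod_le_prod (fun p hp => ?_) (fun p hp => ?_)
      · have := hh_nonneg hu1 (hPp p (Finset.filter_subset _ _ hp))
        positivity
      · have h0 := hh_nonneg hu1 (hPp p (Finset.filter_subset _ _ hp))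
        have hp1 : (1 : ℝ) ≤ p := by
          exact_mod_cast (hPp p (Finset.filter_subset _ _ hp)).one_lt.le
        have h3 : hh u p / p ≤ hh u p := div_le_self h0 hp1
        have h4 : ((1 - (p : ℝ) ^ (-(ss u)))⁻¹) ^ u = 1 + hh u p := by rw [hh]; ring
        rw [h4]; linarith
    have h3 : (1 : ℝ) ≤ ∏ p ∈ A \ P.filter (fun p => p ≤ u), ((1 - (p : ℝ) ^ (-(ss u)))⁻¹) ^ u := by
      refine Finset.prod_induction _ (fun x : ℝ => 1 ≤ x)
        (fun a b ha hb => one_le_mul_of_one_le_of_one_le ha hb) le_rfl (fun p hp => ?_)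
      have h4 := hh_nonneg hu1 (hAp p (Finset.sdiff_subset hp))
      have h5 : ((1 - (p : ℝ) ^ (-(ss u)))⁻¹) ^ u = 1 + hh u p := by rw [hh]; ring
      rw [h5]; linarith
    have h4 : 0 ≤ ∏ p ∈ P.filter (fun p => p ≤ u), (1 + hh u p / p) := Finset.prod_nonneg
      fun p hp => by
        have := hh_nonneg hu1 (hPp p (Finset.filter_subset _ _ hp))
        positivity
    calc _ ≤ 1 * ∏ p ∈ P.filter (fun p => p ≤ u), ((1 - (p : ℝ) ^ (-(ss u)))⁻¹) ^ u := by
          rw [one_mul]; exact h2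
      _ ≤ _ := mul_le_mul_of_nonneg_right h3 (h4.trans h2)
  have h2 : ∏ p ∈ A, ((1 - (p : ℝ) ^ (-(ss u)))⁻¹) ^ u ≤
      (MP u) ^ u * Real.exp (16 * Real.log u * (1 + Real.log u)) := by
    rw [Finset.prod_pow]
    have h3 : ∏ p ∈ A, (1 - (p : ℝ) ^ (-(ss u)))⁻¹ ≤
        ∏ p ∈ A, ((1 - (p : ℝ)⁻¹)⁻¹ * Real.exp (16 * (Real.log u / u) * (1 / p))) := by
      refine Finset.prod_le_prod (fun p hp => ?_) (fun p hp => ?_)
      · have := prime_pow_lt (ss_pos hu1) (hAp p hp)
        exact inv_nonneg.2 (by linarith)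
      · exact small_prime hu (by omega) (hAp p hp)
          (Finset.mem_Icc.1 (Finset.mem_filter.1 hp).1).2
    rw [Finset.prod_mul_distrib, ← Real.exp_sum, ← Finset.mul_sum] at h3
    have h4 : ∑ p ∈ A, (1 : ℝ) / p ≤ 1 + Real.log u := by
      have h5 : ∑ p ∈ A, (1 : ℝ) / p ≤ ∑ m ∈ Icc 1 u, (1 : ℝ) / m :=
        Finset.sum_le_sum_of_subset_of_nonneg (Finset.filter_subset _ _) fun _ _ _ => by positivity
      have h6 := harmonic_le_one_add_log u
      rw [harmonic_eq_sum_Icc] at h6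
      push_cast at h6
      simp only [one_div] at h5 ⊢
      exact h5.trans h6
    have h7 : 0 ≤ ∏ p ∈ A, (1 - (p : ℝ) ^ (-(ss u)))⁻¹ := Finset.prod_nonneg fun p hp => by
      have := prime_pow_lt (ss_pos hu1) (hAp p hp)
      exact inv_nonneg.2 (by linarith)
    have hMP : 0 ≤ MP u := Finset.prod_nonneg fun p hp => by
      have hp2 : (1 : ℝ) < p := by exact_mod_cast (hAp p hp).one_lt
      have := inv_lt_one_of_one_lt₀ hp2
      exact inv_nonneg.2 (by linarith)
    calc _ ≤ (MP u * Real.exp (16 * (Real.log u / u) * ∑ p ∈ A, (1 : ℝ) / p)) ^ u :=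
          pow_le_pow_left₀ h7 h3 u
      _ ≤ (MP u * Real.exp (16 * (Real.log u / u) * (1 + Real.log u))) ^ u := by
          refine pow_le_pow_left₀ (by positivity) ?_ u
          refine mul_le_mul_of_nonneg_left (Real.exp_le_exp.2 ?_) hMP
          exact mul_le_mul_of_nonneg_left h4 (by positivity)
      _ = _ := by
          rw [mul_pow, ← Real.exp_nat_mul]
          congr 2
          field_simp
  -- large primes
  have h3 : ∏ p ∈ P.filter (fun p => ¬ p ≤ u), (1 + hh u p / p) ≤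
      Real.exp (2 * Real.exp 6 * (u : ℝ) ^ (1 / 2 : ℝ) * S54) := by
    calc _ ≤ ∏ p ∈ P.filter (fun p => ¬ p ≤ u), Real.exp (hh u p / p) := by
          refine Finset.prod_le_prod (fun p hp => ?_) (fun p hp => ?_)
          · have := hh_nonneg hu1 (hPp p (Finset.filter_subset _ _ hp))
            positivity
          · linarith [Real.add_one_le_exp (hh u p / p)]
      _ = Real.exp (∑ p ∈ P.filter (fun p => ¬ p ≤ u), hh u p / p) := by rw [Real.exp_sum]
      _ ≤ _ := by
          refine Real.exp_le_exp.2 ?_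
          calc _ ≤ ∑ p ∈ P.filter (fun p => ¬ p ≤ u),
                2 * Real.exp 6 * (u : ℝ) ^ (1 / 2 : ℝ) * (1 / (p : ℝ) ^ (5 / 4 : ℝ)) := by
                refine Finset.sum_le_sum fun p hp => ?_
                have hp' := (Finset.mem_filter.1 hp).2
                exact large_prime hu hu1 (by omega)
            _ = 2 * Real.exp 6 * (u : ℝ) ^ (1 / 2 : ℝ) *
                ∑ p ∈ P.filter (fun p => ¬ p ≤ u), (1 / (p : ℝ) ^ (5 / 4 : ℝ)) := by
                rw [Finset.mul_sum]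
            _ ≤ _ := by
                refine mul_le_mul_of_nonneg_left ?_ (by positivity)
                exact summable54.sum_le_tsum _ (fun _ _ => by positivity)
  have h4 : 0 ≤ ∏ p ∈ P.filter (fun p => ¬ p ≤ u), (1 + hh u p / p) := Finset.prod_nonneg
    fun p hp => by
      have := hh_nonneg hu1 (hPp p (Finset.filter_subset _ _ hp))
      positivity
  have h5 : 0 ≤ (MP u) ^ u * Real.exp (16 * Real.log u * (1 + Real.log u)) := by
    refine le_trans ?_ h2
    refine Finset.prod_nonneg fun p hp => ?_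
    have := prime_pow_lt (ss_pos hu1) (hAp p hp)
    exact pow_nonneg (inv_nonneg.2 (by linarith)) _
  calc _ ≤ ((MP u) ^ u * Real.exp (16 * Real.log u * (1 + Real.log u))) *
        Real.exp (2 * Real.exp 6 * (u : ℝ) ^ (1 / 2 : ℝ) * S54) :=
        mul_le_mul (h1.trans h2) h3 h4 h5
    _ = _ := by rw [mul_assoc, ← Real.exp_add]

lemma MP_nonneg (u : ℕ) : 0 ≤ MP u := Finset.prod_nonneg fun p hp => by
  have hp2 : (1 : ℝ) < p := by exact_mod_cast (Finset.mem_filter.1 hp).2.one_lt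
  have := inv_lt_one_of_one_lt₀ hp2
  exact inv_nonneg.2 (by linarith)

/-- **The moments of `σ_{-s}`.** -/
theorem moment (η : ℝ) (hη : 0 < η) : ∃ U : ℕ, ∀ u : ℕ, U ≤ u → ∀ y : ℕ,
    ∑ n ∈ Icc 1 y, (sg (ss u) n) ^ u ≤
      y * ((Real.exp Real.eulerMascheroniConstant + η) * Real.log u) ^ u := by
  set g : ℝ := Real.exp Real.eulerMascheroniConstant with hg
  have hg0 : 0 < g := Real.exp_pos _
  -- the small factor
  have hE : Tendsto (fun u : ℕ => (16 * Real.log u * (1 + Real.log u) +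
      2 * Real.exp 6 * (u : ℝ) ^ (1 / 2 : ℝ) * S54) / u) atTop (𝓝 0) := by
    have hr : Tendsto (fun x : ℝ => (16 * Real.log x * (1 + Real.log x) +
      2 * Real.exp 6 * x ^ (1 / 2 : ℝ) * S54) / x) atTop (𝓝 0) := by
      have h1 : Tendsto (fun x : ℝ => Real.log x / x) atTop (𝓝 0) :=
        Real.isLittleO_log_id_atTop.tendsto_div_nhds_zero
      have h2 : Tendsto (fun x : ℝ => Real.log x ^ 2 / x) atTop (𝓝 0) := by
        have := (isLittleO_log_rpow_rpow_atTop (s := 1) 2 (by norm_num)).tendsto_div_nhds_zero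
        refine this.congr' ?_
        filter_upwards [eventually_gt_atTop 1] with x hx
        rw [Real.rpow_one]
        norm_cast
      have h3 : Tendsto (fun x : ℝ => x ^ (-(1 / 2) : ℝ)) atTop (𝓝 0) :=
        tendsto_rpow_neg_atTop (by norm_num)
      have h4 := ((h1.const_mul 16).add (h2.const_mul 16)).add
        (h3.const_mul (2 * Real.exp 6 * S54))
      simp only [mul_zero, add_zero] at h4
      refine h4.congr' ?_
      filter_upwards [eventually_gt_atTop 0] with x hx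
      have : x ^ (-(1 / 2) : ℝ) = x ^ (1 / 2 : ℝ) / x := by
        rw [eq_div_iff hx.ne']
        conv_lhs => rw [← Real.rpow_one x]
        rw [← Real.rpow_mul hx.le, one_mul, ← Real.rpow_add hx]
        norm_num
      rw [this]
      field_simp
    exact hr.comp tendsto_natCast_atTop_atTop
  have hprod : Tendsto (fun u : ℕ => (MP u / Real.log u) * Real.exp ((16 * Real.log u *
      (1 + Real.log u) + 2 * Real.exp 6 * (u : ℝ) ^ (1 / 2 : ℝ) * S54) / u)) atTop (𝓝 (g * 1)) := by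
    have h1 : Tendsto (fun u : ℕ => MP u / Real.log u) atTop (𝓝 g) :=
      Pool.Agent.KS6_57.MT3.mertens_three
    have h2 := (Real.continuous_exp.tendsto 0).comp hE
    rw [Real.exp_zero] at h2
    exact h1.mul h2
  rw [mul_one] at hprod
  have hev1 := hprod.eventually (eventually_lt_nhds (show g < g + η by linarith))
  have hlogsmall : ∀ᶠ u : ℕ in atTop, 8 * Real.log u ≤ u := by
    have h1 : Tendsto (fun x : ℝ => Real.log x / x) atTop (𝓝 0) :=
      Real.isLittleO_log_id_atTop.tendsto_div_nhds_zero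
    have h2 := (h1.comp tendsto_natCast_atTop_atTop).eventually
      (eventually_lt_nhds (show (0 : ℝ) < 1 / 8 by norm_num))
    filter_upwards [h2, eventually_ge_atTop 1] with u hu hu1
    have hu0 : (0 : ℝ) < u := by exact_mod_cast hu1
    simp only [Function.comp] at hu
    rw [div_lt_iff₀ hu0] at hu
    linarith
  obtain ⟨U, hU⟩ := eventually_atTop.1 (hev1.and (hlogsmall.and (eventually_ge_atTop 8)))
  refine ⟨U, fun u hu y => ?_⟩
  obtain ⟨h1, h2, h3⟩ := hU u hu
  have hu8 : (8 : ℝ) ≤ u := by exact_mod_cast h3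
  have hu0 : (0 : ℝ) < u := by linarith
  have hlog : 0 < Real.log u := Real.log_pos (by linarith)
  have hs := ss_pos h3
  have hA : ∑ n ∈ Icc 1 y, (sg (ss u) n) ^ u ≤ ∑ n ∈ Icc 1 y, ∏ p ∈ n.primeFactors, (1 + hh u p) := by
    refine Finset.sum_le_sum fun n hn => ?_
    have hn1 := (Finset.mem_Icc.1 hn).1
    have h4 := pow_le_pow_left₀ (sg_nonneg _ _) (sg_le hs (n := n) (by omega)) u
    rw [← Finset.prod_pow] at h4
    refine h4.trans (le_of_eq (Finset.prod_congr rfl fun p _ => ?_))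
    rw [hh]; ring
  -- replace `hh` by a function which is nonnegative everywhere
  have hB : ∑ n ∈ Icc 1 y, ∏ p ∈ n.primeFactors, (1 + hh u p) ≤
      y * ∏ p ∈ (Icc 1 y).filter Nat.Prime, (1 + hh u p / p) := by
    have h5 := mean_le (fun p => max (hh u p) 0) (fun p => le_max_right _ _) y
    have h6 : ∀ n : ℕ, ∏ p ∈ n.primeFactors, (1 + hh u p) =
        ∏ p ∈ n.primeFactors, (1 + max (hh u p) 0) := fun n =>
      Finset.prod_congr rfl fun p hp => by
        rw [max_eq_left (hh_nonneg h3 (Nat.prime_of_mem_primeFactors hp))]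
    have h7 : ∏ p ∈ (Icc 1 y).filter Nat.Prime, (1 + hh u p / p) =
        ∏ p ∈ (Icc 1 y).filter Nat.Prime, (1 + max (hh u p) 0 / p) :=
      Finset.prod_congr rfl fun p hp => by
        rw [max_eq_left (hh_nonneg h3 (Finset.mem_filter.1 hp).2)]
    rw [h7, Finset.sum_congr rfl fun n _ => h6 n]
    exact h5
  refine hA.trans (hB.trans (mul_le_mul_of_nonneg_left ?_ (by positivity)))
  refine (prod_le_aux h2 h3 y).trans ?_
  set E : ℝ := 16 * Real.log u * (1 + Real.log u) + 2 * Real.exp 6 * (u : ℝ) ^ (1 / 2 : ℝ) * S54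
  have h8 : Real.exp E = (Real.exp (E / u)) ^ u := by
    rw [← Real.exp_nat_mul]; congr 1; field_simp
  rw [h8, ← mul_pow]
  refine pow_le_pow_left₀ (mul_nonneg (MP_nonneg u) (Real.exp_pos _).le) ?_ u
  have h9 : MP u * Real.exp (E / u) = (MP u / Real.log u * Real.exp (E / u)) * Real.log u := by
    field_simp
  rw [h9]
  exact mul_le_mul_of_nonneg_right h1.le hlog.le

end Pool.Agent.KS6_57.DS
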