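import Mathlib
import Pool.Agent.KS6_57.DS.Defs
import Pool.Agent.KS6_57.DS.Moment2

namespace Pool.Agent.KS6_57.DS

open Finset Filter Topology

/-- `∑_{j ∣ n, j ≥ k} 1 / j` -/
noncomputable def TT (k n : ℕ) : ℝ := ∑ j ∈ n.divisors.filter (fun j => k ≤ j), 1 / (j : ℝ)

/-- the constant `∑ 1 / k ^ 2` -/
noncomputable def C2 : ℝ := ∑' k : ℕ, 1 / (k : ℝ) ^ 2

lemma summable2 : Summable (fun k : ℕ => 1 / (k : ℝ) ^ 2) :=
  Real.summable_one_div_nat_pow.2 (by norm_num)

lemma C2_nonneg : 0 ≤ C2 := tsum_nonneg fun _ => by positivity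

/-- the sum attached to the divisor `k` of `n` -/
def FF (n k : ℕ) : ℕ := ∑ d ∈ n.divisors.filter (fun d => 1 < d ∧ d ≤ n / k), d

lemma FF_add_one {n t : ℕ} (ht : t ∈ n.divisors) (ht1 : 1 < t) :
    ((FF n (n / t) : ℕ) : ℝ) + 1 = n * TT (n / t) n := by
  have htn := Nat.mem_divisors.1 ht
  have hn0 : 0 < n := Nat.pos_of_ne_zero htn.2
  have hnt : n / (n / t) = t := Nat.div_div_self htn.1 htn.2
  have h1 : FF n (n / t) + 1 = ∑ d ∈ n.divisors, if d ≤ t then d else 0 := by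
    rw [FF, hnt, ← Finset.sum_filter]
    have h2 : n.divisors.filter (fun d => d ≤ t) =
        insert 1 (n.divisors.filter (fun d => 1 < d ∧ d ≤ t)) := by
      ext d
      simp only [Finset.mem_filter, Finset.mem_insert, Nat.mem_divisors]
      constructor
      · rintro ⟨⟨h3, h4⟩, h5⟩
        have : 0 < d := Nat.pos_of_dvd_of_pos h3 hn0
        by_cases h6 : d = 1
        · exact Or.inl h6
        · exact Or.inr ⟨⟨h3, h4⟩, by omega, h5⟩
      · rintro (h3 | ⟨h3, h4, h5⟩)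
        · subst h3
          exact ⟨⟨one_dvd _, htn.2⟩, ht1.le⟩
        · exact ⟨h3, h5⟩
    rw [h2, Finset.sum_insert (by simp), add_comm]
  have h2 : ((FF n (n / t) : ℕ) : ℝ) + 1 = ∑ d ∈ n.divisors, if d ≤ t then (d : ℝ) else 0 := by
    have := congrArg (fun m : ℕ => (m : ℝ)) h1
    push_cast at this
    exact this
  rw [h2, ← Nat.sum_div_divisors, TT, Finset.sum_filter, Finset.mul_sum]
  refine Finset.sum_congr rfl fun j hj => ?_
  have hj' := Nat.mem_divisors.1 hj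
  have hj0 : 0 < j := Nat.pos_of_dvd_of_pos hj'.1 hn0
  have hiff : n / j ≤ t ↔ n / t ≤ j := by
    rw [Nat.div_le_iff_le_mul_add_pred hj0, Nat.div_le_iff_le_mul_add_pred (by omega)]
    obtain ⟨a, ha⟩ := hj'.1
    obtain ⟨b, hb⟩ := htn.1
    constructor
    · intro h
      have h3 : a ≤ t := by
        by_contra h4
        push Not at h4
        have h5 : j * (t + 1) ≤ j * a := Nat.mul_le_mul_left _ h4
        rw [Nat.mul_succ, ← ha] at h5
        omega
      calc n = j * a := ha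
        _ ≤ j * t := Nat.mul_le_mul_left _ h3
        _ = t * j := Nat.mul_comm _ _
        _ ≤ _ := Nat.le_add_right _ _
    · intro h
      have h3 : b ≤ j := by
        by_contra h4
        push Not at h4
        have h5 : t * (j + 1) ≤ t * b := Nat.mul_le_mul_left _ h4
        rw [Nat.mul_succ, ← hb] at h5
        omega
      calc n = t * b := hb
        _ ≤ t * j := Nat.mul_le_mul_left _ h3
        _ = j * t := Nat.mul_comm _ _
        _ ≤ _ := Nat.le_add_right _ _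
  by_cases h : n / t ≤ j
  · rw [if_pos (hiff.2 h), if_pos h, Nat.cast_div hj'.1 (by exact_mod_cast hj0.ne')]
    ring
  · rw [if_neg (fun h' => h (hiff.1 h')), if_neg h]
    simp

lemma TT_le {u : ℕ} (hu : 8 ≤ u) {k : ℕ} (hk : 1 ≤ k) (n : ℕ) :
    TT k n ≤ (k : ℝ) ^ (-(2 / (u : ℝ))) * sg (ss u) n := by
  have hu8 : (8 : ℝ) ≤ u := by exact_mod_cast hu
  rw [TT, sg, Finset.mul_sum]
  have h1 : ∀ j ∈ n.divisors.filter (fun j => k ≤ j), 1 / (j : ℝ) ≤
      (k : ℝ) ^ (-(2 / (u : ℝ))) * (j : ℝ) ^ (-(ss u)) := by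
    intro j hj
    have hkj : k ≤ j := (Finset.mem_filter.1 hj).2
    have hk0 : (0 : ℝ) < k := by exact_mod_cast hk
    have hj0 : (0 : ℝ) < j := by
      have : 0 < j := by omega
      exact_mod_cast this
    have e : 1 / (j : ℝ) = (j : ℝ) ^ (-(2 / (u : ℝ))) * (j : ℝ) ^ (-(ss u)) := by
      rw [← Real.rpow_add hj0, ss, one_div, ← Real.rpow_neg_one]
      congr 1; ring
    rw [e]
    refine mul_le_mul_of_nonneg_right ?_ (by positivity)
    exact Real.rpow_le_rpow_of_nonpos hk0 (by exact_mod_cast hkj) (by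
      have : 0 < 2 / (u : ℝ) := by positivity
      linarith)
  refine (Finset.sum_le_sum h1).trans ?_
  exact Finset.sum_le_sum_of_subset_of_nonneg (Finset.filter_subset _ _) fun _ _ _ => by positivity

lemma TT_nonneg (k n : ℕ) : 0 ≤ TT k n := Finset.sum_nonneg fun _ _ => by positivity

lemma pairs_le {u : ℕ} (hu : 8 ≤ u) {ε : ℝ} (hε : 0 < ε) (n : ℕ) :
    ((n.divisors.filter fun k => 1 / ε < TT k n).card : ℝ) ≤ C2 * ε ^ u * (sg (ss u) n) ^ u := by
  have hu8 : (8 : ℝ) ≤ u := by exact_mod_cast hu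
  have h1 : ((n.divisors.filter fun k => 1 / ε < TT k n).card : ℝ) =
      ∑ k ∈ n.divisors.filter fun k => 1 / ε < TT k n, (1 : ℝ) := by simp
  rw [h1]
  have h2 : ∀ k ∈ n.divisors.filter (fun k => 1 / ε < TT k n), (1 : ℝ) ≤
      1 / (k : ℝ) ^ 2 * (ε ^ u * (sg (ss u) n) ^ u) := by
    intro k hk
    obtain ⟨h3, h4⟩ := Finset.mem_filter.1 hk
    have hk1 : 1 ≤ k := Nat.pos_of_mem_divisors h3
    have hk0 : (0 : ℝ) < k := by exact_mod_cast hk1
    have h5 : 1 ≤ ε * ((k : ℝ) ^ (-(2 / (u : ℝ))) * sg (ss u) n) := by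
      have h6 := h4.le.trans (TT_le hu hk1 n)
      rw [div_le_iff₀ hε] at h6
      linarith
    have h7 := one_le_pow₀ (n := u) h5
    rw [mul_pow, mul_pow] at h7
    have h8 : ((k : ℝ) ^ (-(2 / (u : ℝ)))) ^ u = 1 / (k : ℝ) ^ 2 := by
      rw [← Real.rpow_natCast, ← Real.rpow_mul hk0.le]
      have : -(2 / (u : ℝ)) * (u : ℝ) = -(2 : ℕ) := by
        field_simp
        norm_num
      rw [this, Real.rpow_neg hk0.le, Real.rpow_natCast, one_div]
    rw [h8] at h7
    linarith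
  refine (Finset.sum_le_sum h2).trans ?_
  rw [← Finset.sum_mul, mul_assoc]
  refine mul_le_mul_of_nonneg_right ?_ (by have := sg_nonneg (ss u) n; positivity)
  exact summable2.sum_le_tsum _ (fun _ _ => by positivity)

lemma count_le {u : ℕ} (hu : 8 ≤ u) {ε : ℝ} (hε : 0 < ε) (x : ℕ) :
    (count ε x : ℝ) ≤ C2 * ε ^ u * ∑ n ∈ Icc 1 ⌊ε * x⌋₊, (sg (ss u) n) ^ u := by
  classical
  set W : Finset (Σ _ : ℕ, ℕ) := (Icc 1 ⌊ε * x⌋₊).sigma fun n =>
    n.divisors.filter fun k => 1 / ε < TT k n with hW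
  have h1 : {N : ℕ | 1 ≤ N ∧ N ≤ x ∧ Representable N ∧ (f N : ℝ) ≤ ε * N} ⊆
      ((W.image fun z => FF z.1 z.2 : Finset ℕ) : Set ℕ) := by
    rintro N ⟨hN1, hNx, hrep, hf⟩
    obtain ⟨t, ht, ht1, hN⟩ : N ∈ D (f N) := Nat.sInf_mem hrep
    set n := f N with hn
    have htn := Nat.mem_divisors.1 ht
    have hn0 : 0 < n := Nat.pos_of_ne_zero htn.2
    have hnR : (0 : ℝ) < n := by exact_mod_cast hn0
    have hnt : n / (n / t) = t := Nat.div_div_self htn.1 htn.2
    have hFF : FF n (n / t) = N := by rw [FF, hnt]; exact hN.symm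
    have h2 := FF_add_one ht ht1
    rw [hFF] at h2
    rw [Finset.coe_image]
    refine ⟨⟨n, n / t⟩, ?_, hFF⟩
    rw [Finset.mem_coe, hW, Finset.mem_sigma, Finset.mem_Icc, Finset.mem_filter]
    refine ⟨⟨hn0, Nat.le_floor ?_⟩, Nat.mem_divisors.2 ⟨Nat.div_dvd_of_dvd htn.1, htn.2⟩, ?_⟩
    · exact hf.trans (mul_le_mul_of_nonneg_left (by exact_mod_cast hNx) hε.le)
    · have h3 : TT (n / t) n = ((N : ℝ) + 1) / n := by rw [h2]; field_simp
      rw [h3, div_lt_div_iff₀ hε hnR]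
      nlinarith
  have h2 : count ε x ≤ W.card := by
    rw [count]
    calc _ ≤ ((W.image fun z => FF z.1 z.2 : Finset ℕ) : Set ℕ).ncard :=
          Set.ncard_le_ncard h1 (Finset.finite_toSet _)
      _ = (W.image fun z => FF z.1 z.2).card := Set.ncard_coe_finset _
      _ ≤ _ := Finset.card_image_le
  calc (count ε x : ℝ) ≤ (W.card : ℝ) := by exact_mod_cast h2
    _ = ∑ n ∈ Icc 1 ⌊ε * x⌋₊, ((n.divisors.filter fun k => 1 / ε < TT k n).card : ℝ) := by
        rw [hW, Finset.card_sigma]; push_cast; rfl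
    _ ≤ ∑ n ∈ Icc 1 ⌊ε * x⌋₊, C2 * ε ^ u * (sg (ss u) n) ^ u :=
        Finset.sum_le_sum fun n _ => pairs_le hu hε n
    _ = _ := by rw [Finset.mul_sum]

/-- **The upper bound.** -/
theorem upper (δ : ℝ) (hδ : 0 < δ) : ∃ ε₀ : ℝ, 0 < ε₀ ∧ ∀ ε : ℝ, 0 < ε → ε ≤ ε₀ → ∀ x : ℕ,
    (count ε x : ℝ) ≤
      x * Real.exp (-Real.exp ((Real.exp (-Real.eulerMascheroniConstant) - δ) / ε)) := by
  set γ := Real.eulerMascheroniConstant with hγ
  set g : ℝ := Real.exp γ with hg
  have hg0 : 0 < g := Real.exp_pos _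
  have hgi : Real.exp (-γ) = g⁻¹ := Real.exp_neg _
  rw [hgi]
  set δ' : ℝ := min δ (g⁻¹ / 2) with hδ'
  have hgi0 : 0 < g⁻¹ := by positivity
  have hδ'0 : 0 < δ' := lt_min hδ (by positivity)
  have hδ'1 : δ' ≤ g⁻¹ / 2 := min_le_right _ _
  have hδ'2 : δ' ≤ δ := min_le_left _ _
  set c : ℝ := g⁻¹ - δ' with hc
  set c' : ℝ := g⁻¹ - δ' / 2 with hc'
  have hc0 : 0 < c := by rw [hc]; linarith
  have hcc' : c < c' := by rw [hc, hc']; linarith
  have hc'0 : 0 < c' := hc0.trans hcc'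
  set η : ℝ := g * δ' / (4 * c') with hη
  have hη0 : 0 < η := by positivity
  set q : ℝ := 1 - g * δ' / 4 with hq
  have hq1 : (g + η) * c' = q := by
    rw [hη, hq, add_mul, div_mul_eq_mul_div]
    have : g * c' = 1 - g * δ' / 2 := by rw [hc']; field_simp
    rw [this]
    field_simp
    ring
  have hqlt : q < 1 := by rw [hq]; nlinarith
  have hq0 : 0 < q := by rw [← hq1]; positivity
  obtain ⟨U, hU⟩ := moment η hη0
  set L : ℝ := -Real.log q with hL
  have hL0 : 0 < L := by rw [hL]; have := Real.log_neg hq0 hqlt; linarith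
  -- conditions on `v = 1 / ε`
  have h1 : Tendsto (fun v : ℝ => Real.exp (c' * v)) atTop atTop :=
    Real.tendsto_exp_atTop.comp (tendsto_id.const_mul_atTop hc'0)
  have h2 : Tendsto (fun v : ℝ => Real.exp ((c' - c) * v)) atTop atTop :=
    Real.tendsto_exp_atTop.comp (tendsto_id.const_mul_atTop (by linarith))
  obtain ⟨v₀, hv₀⟩ := eventually_atTop.1 ((h1.eventually_ge_atTop (((max U 8 : ℕ) : ℝ) + 1)).and
    ((h2.eventually_ge_atTop (1 / L + 1)).and (eventually_ge_atTop (max 1 (C2 + 1)))))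
  refine ⟨1 / max v₀ 1, by positivity, fun ε hε hε1 x => ?_⟩
  set v : ℝ := 1 / ε with hv
  have hvv : v₀ ≤ v := by
    rw [hv, le_div_iff₀ hε]
    have h3 : 0 < max v₀ 1 := lt_max_of_lt_right one_pos
    rw [le_div_iff₀ h3] at hε1
    calc v₀ * ε ≤ max v₀ 1 * ε := mul_le_mul_of_nonneg_right (le_max_left _ _) hε.le
      _ ≤ 1 := by linarith
  obtain ⟨h3, h4, h5⟩ := hv₀ v hvv
  have hv1 : 1 ≤ v := (le_max_left _ _).trans h5
  have hvC : C2 ≤ v := by linarith [(le_max_right 1 (C2 + 1)).trans h5]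
  have hεv : ε * v = 1 := by rw [hv]; field_simp
  set u : ℕ := ⌊Real.exp (c' * v)⌋₊ with hu
  have hu1 : Real.exp (c' * v) < u + 1 := Nat.lt_floor_add_one _
  have hu2 : (u : ℝ) ≤ Real.exp (c' * v) := Nat.floor_le (Real.exp_pos _).le
  have hu3 : max U 8 ≤ u := by
    have : (((max U 8 : ℕ) : ℝ)) < (u : ℝ) + 1 := by linarith
    exact_mod_cast Nat.lt_succ_iff.1 (by exact_mod_cast this)
  have hu8 : 8 ≤ u := (le_max_right _ _).trans hu3
  have huR : (8 : ℝ) ≤ u := by exact_mod_cast hu8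
  have hlogu : Real.log u ≤ c' * v := by
    rw [← Real.log_exp (c' * v)]
    exact Real.log_le_log (by linarith) hu2
  have hlogu0 : 0 ≤ Real.log u := Real.log_nonneg (by linarith)
  have h6 := hU u ((le_max_left _ _).trans hu3) ⌊ε * x⌋₊
  have h7 : (count ε x : ℝ) ≤ C2 * ε ^ u * ((ε * x) * ((g + η) * Real.log u) ^ u) := by
    refine (count_le hu8 hε x).trans (mul_le_mul_of_nonneg_left (h6.trans ?_)
      (by have := C2_nonneg; positivity))
    refine mul_le_mul_of_nonneg_right (Nat.floor_le (by positivity)) ?_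
    positivity
  have h8 : C2 * ε ^ u * ((ε * x) * ((g + η) * Real.log u) ^ u) =
      (C2 * ε) * x * (ε * ((g + η) * Real.log u)) ^ u := by
    rw [mul_pow ε]; ring
  have h9 : ε * ((g + η) * Real.log u) ≤ q := by
    calc ε * ((g + η) * Real.log u) ≤ ε * ((g + η) * (c' * v)) := by gcongr
      _ = (g + η) * c' * (ε * v) := by ring
      _ = q := by rw [hεv, mul_one, hq1]
  have h10 : C2 * ε ≤ 1 := by
    calc C2 * ε ≤ v * ε := mul_le_mul_of_nonneg_right hvC hε.le
      _ = 1 := by rw [mul_comm]; exact hεv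
  have h11 : q ^ u ≤ Real.exp (-Real.exp (c * v)) := by
    have e1 : q ^ u = Real.exp (-(u * L)) := by
      rw [hL, mul_neg, neg_neg, mul_comm, Real.exp_mul, Real.exp_log hq0, Real.rpow_natCast]
    rw [e1]
    refine Real.exp_le_exp.2 (neg_le_neg ?_)
    have e2 : Real.exp (c' * v) = Real.exp (c * v) * Real.exp ((c' - c) * v) := by
      rw [← Real.exp_add]; ring_nf
    have e3 : 1 ≤ Real.exp (c * v) := Real.one_le_exp (by positivity)
    have e4 : Real.exp (c * v) * (1 / L + 1) ≤ Real.exp (c' * v) := by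
      rw [e2]; exact mul_le_mul_of_nonneg_left h4 (by positivity)
    have e5 : Real.exp (c * v) * (1 / L) ≤ u := by nlinarith
    calc Real.exp (c * v) = Real.exp (c * v) * (1 / L) * L := by field_simp
      _ ≤ u * L := mul_le_mul_of_nonneg_right e5 hL0.le
  have h12 : Real.exp (-Real.exp (c * v)) ≤ Real.exp (-Real.exp ((g⁻¹ - δ) / ε)) := by
    refine Real.exp_le_exp.2 (neg_le_neg (Real.exp_le_exp.2 ?_))
    rw [hc, hv, mul_one_div]
    exact div_le_div_of_nonneg_right (by linarith) hε.le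
  calc (count ε x : ℝ) ≤ (C2 * ε) * x * (ε * ((g + η) * Real.log u)) ^ u := h7.trans h8.le
    _ ≤ 1 * x * q ^ u := by
        have := C2_nonneg
        gcongr
    _ ≤ 1 * x * Real.exp (-Real.exp ((g⁻¹ - δ) / ε)) :=
        mul_le_mul_of_nonneg_left (h11.trans h12) (by positivity)
    _ = _ := by rw [one_mul]

end Pool.Agent.KS6_57.DS
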