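import Mathlib
import Pool.Agent.KS6_57.DS.Upper

namespace Pool.Agent.KS6_57.DS

open Finset Filter Topology

/-- the sum of the divisors of `∏ p ^ A` -/
lemma sum_divisors_prod (A : ℕ) (P : Finset ℕ) (hP : ∀ p ∈ P, p.Prime) :
    ∑ d ∈ (∏ p ∈ P, p ^ A).divisors, d = ∏ p ∈ P, ∑ i ∈ range (A + 1), p ^ i := by
  classical
  induction P using Finset.induction_on with
  | empty => simp
  | insert p P hp ih =>
    rw [Finset.prod_insert hp, Finset.prod_insert hp, Nat.Coprime.sum_divisors_mul,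
      ih fun q hq => hP q (Finset.mem_insert_of_mem hq)]
    · congr 1
      rw [Nat.sum_divisors_prime_pow (hP p (Finset.mem_insert_self _ _))]
    · refine Nat.Coprime.prod_right fun q hq => Nat.Coprime.pow _ _ ?_
      exact (Nat.coprime_primes (hP p (Finset.mem_insert_self _ _))
        (hP q (Finset.mem_insert_of_mem hq))).2 (fun h => hp (h ▸ hq))

lemma geom_ratio (A : ℕ) {p : ℕ} (hp : p.Prime) :
    ((∑ i ∈ range (A + 1), p ^ i : ℕ) : ℝ) / (p : ℝ) ^ A =
      (1 - (p : ℝ)⁻¹)⁻¹ * (1 - 1 / (p : ℝ) ^ (A + 1)) := by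
  have hp1 : (1 : ℝ) < p := by exact_mod_cast hp.one_lt
  have hp0 : (0 : ℝ) < p := by linarith
  push_cast
  rw [geom_sum_eq hp1.ne']
  have h1 : (p : ℝ) - 1 ≠ 0 := by linarith
  have h2 : 1 - (p : ℝ)⁻¹ = ((p : ℝ) - 1) / p := by field_simp
  rw [h2]
  field_simp
  ring

lemma prod_one_sub_ge (P : Finset ℕ) (a : ℕ → ℝ) (h0 : ∀ p ∈ P, 0 ≤ a p) (h1 : ∀ p ∈ P, a p ≤ 1) :
    1 - ∑ p ∈ P, a p ≤ ∏ p ∈ P, (1 - a p) := by
  classical
  induction P using Finset.induction_on with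
  | empty => simp
  | insert p P hp ih =>
    rw [Finset.prod_insert hp, Finset.sum_insert hp]
    have i1 := ih (fun q hq => h0 q (Finset.mem_insert_of_mem hq))
      (fun q hq => h1 q (Finset.mem_insert_of_mem hq))
    have i2 : 0 ≤ ∑ q ∈ P, a q := Finset.sum_nonneg fun q hq => h0 q (Finset.mem_insert_of_mem hq)
    have i3 := h0 p (Finset.mem_insert_self _ _)
    have i4 := h1 p (Finset.mem_insert_self _ _)
    nlinarith

/-- the numbers of the example -/
def nn (A y : ℕ) : ℕ := ∏ p ∈ (Icc 1 y).filter Nat.Prime, p ^ A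

lemma nn_eq (A y : ℕ) : nn A y = (primorial y) ^ A := by
  rw [nn, Finset.prod_pow, primorial]
  congr 1
  refine Finset.prod_congr ?_ fun _ _ => rfl
  ext p
  simp only [Finset.mem_filter, Finset.mem_Icc, Finset.mem_range]
  constructor
  · rintro ⟨⟨_, h2⟩, h3⟩; exact ⟨by omega, h3⟩
  · rintro ⟨h2, h3⟩; exact ⟨⟨h3.one_lt.le, by omega⟩, h3⟩

lemma ratio_ge (A : ℕ) (hA : 1 ≤ A) (y : ℕ) :
    MP y * (1 - C2 / 2 ^ (A - 1)) ≤ ((∑ d ∈ (nn A y).divisors, d : ℕ) : ℝ) / nn A y := by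
  set P := (Icc 1 y).filter Nat.Prime with hP
  have hPp : ∀ p ∈ P, p.Prime := fun p hp => (Finset.mem_filter.1 hp).2
  have h1 : ((∑ d ∈ (nn A y).divisors, d : ℕ) : ℝ) / nn A y =
      MP y * ∏ p ∈ P, (1 - 1 / (p : ℝ) ^ (A + 1)) := by
    rw [nn, sum_divisors_prod A P hPp, MP, ← Finset.prod_mul_distrib]
    rw [Nat.cast_prod, Nat.cast_prod, ← Finset.prod_div_distrib]
    refine Finset.prod_congr rfl fun p hp => ?_
    rw [← geom_ratio A (hPp p hp), Nat.cast_pow]
  rw [h1]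
  refine mul_le_mul_of_nonneg_left ?_ (MP_nonneg y)
  have h2 := prod_one_sub_ge P (fun p => 1 / (p : ℝ) ^ (A + 1)) (fun p _ => by positivity)
    (fun p hp => by
      have hp1 : (1 : ℝ) ≤ p := by exact_mod_cast (hPp p hp).one_lt.le
      rw [div_le_one (by positivity)]
      exact one_le_pow₀ hp1)
  refine le_trans (sub_le_sub_left ?_ 1) h2
  have h3 : ∀ p ∈ P, 1 / (p : ℝ) ^ (A + 1) ≤ (1 / (p : ℝ) ^ 2) * (1 / 2 ^ (A - 1)) := by
    intro p hp
    have hp2 : (2 : ℝ) ≤ p := by exact_mod_cast (hPp p hp).two_le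
    have h4 : (p : ℝ) ^ 2 * 2 ^ (A - 1) ≤ (p : ℝ) ^ (A + 1) := by
      have e : (p : ℝ) ^ (A + 1) = (p : ℝ) ^ 2 * (p : ℝ) ^ (A - 1) := by
        rw [← pow_add]; congr 1; omega
      rw [e]
      gcongr
    calc 1 / (p : ℝ) ^ (A + 1) ≤ 1 / ((p : ℝ) ^ 2 * 2 ^ (A - 1)) :=
          one_div_le_one_div_of_le (by positivity) h4
      _ = _ := by rw [one_div_mul_one_div]
  calc _ ≤ ∑ p ∈ P, (1 / (p : ℝ) ^ 2) * (1 / 2 ^ (A - 1)) := Finset.sum_le_sum h3
    _ = (∑ p ∈ P, (1 / (p : ℝ) ^ 2)) * (1 / 2 ^ (A - 1)) := by rw [Finset.sum_mul]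
    _ ≤ C2 * (1 / 2 ^ (A - 1)) := by
        refine mul_le_mul_of_nonneg_right ?_ (by positivity)
        exact summable2.sum_le_tsum _ (fun _ _ => by positivity)
    _ = _ := by ring

lemma log_nn_le (A y : ℕ) : Real.log (nn A y) ≤ A * (y * 2) := by
  rw [nn_eq]
  push_cast
  rw [Real.log_pow]
  refine mul_le_mul_of_nonneg_left ?_ (by positivity)
  have h1 : (primorial y : ℝ) ≤ 4 ^ y := by exact_mod_cast primorial_le_four_pow y
  have h2 : (0 : ℝ) < primorial y := by exact_mod_cast primorial_pos y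
  calc Real.log (primorial y) ≤ Real.log (4 ^ y) := Real.log_le_log h2 h1
    _ = y * Real.log 4 := Real.log_pow _ _
    _ ≤ y * 2 := by
      refine mul_le_mul_of_nonneg_left ?_ (by positivity)
      have : Real.log 4 = 2 * Real.log 2 := by
        rw [show (4 : ℝ) = 2 ^ 2 by norm_num, Real.log_pow]; norm_num
      rw [this]
      linarith [Real.log_two_lt_d9]

/-- **The lower bound.** -/
theorem lower (δ : ℝ) (hδ : 0 < δ) : ∃ ε₀ : ℝ, 0 < ε₀ ∧ ∀ ε : ℝ, 0 < ε → ε ≤ ε₀ → ∃ x : ℕ, 0 < x ∧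
    x * Real.exp (-Real.exp ((Real.exp (-Real.eulerMascheroniConstant) + δ) / ε)) ≤
      (count ε x : ℝ) := by
  set γ := Real.eulerMascheroniConstant with hγ
  set g : ℝ := Real.exp γ with hg
  have hg0 : 0 < g := Real.exp_pos _
  have hgi : Real.exp (-γ) = g⁻¹ := Real.exp_neg _
  rw [hgi]
  have hgi0 : 0 < g⁻¹ := by positivity
  set c : ℝ := g⁻¹ + δ / 2 with hc
  have hc0 : 0 < c := by rw [hc]; positivity
  set k : ℝ := g * δ / 2 with hk
  have hk0 : 0 < k := by positivity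
  have hgc : g * c = 1 + k := by rw [hc, hk]; field_simp
  set τ : ℝ := k / (4 * (1 + k)) with hτ
  have hτ0 : 0 < τ := by positivity
  have hτ1 : τ * (1 + k) = k / 4 := by rw [hτ]; field_simp
  have hτlt : τ < 1 := by
    rw [hτ, div_lt_one (by positivity)]; linarith
  -- the exponent `A`
  obtain ⟨A, hA1, hA2⟩ : ∃ A : ℕ, 1 ≤ A ∧ C2 / 2 ^ (A - 1) ≤ τ := by
    obtain ⟨m, hm⟩ := pow_unbounded_of_one_lt (C2 / τ) (show (1 : ℝ) < 2 by norm_num)
    refine ⟨m + 1, by omega, ?_⟩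
    rw [Nat.add_sub_cancel, div_le_iff₀ (by positivity)]
    rw [div_lt_iff₀ hτ0] at hm
    linarith
  have hM := (Pool.Agent.KS6_57.MT3.mertens_three).eventually
    (eventually_gt_nhds (show g - g * τ < g by have := mul_pos hg0 hτ0; linarith))
  obtain ⟨Y, hY⟩ := eventually_atTop.1 hM
  have h1 : Tendsto (fun v : ℝ => Real.exp (c * v)) atTop atTop :=
    Real.tendsto_exp_atTop.comp (tendsto_id.const_mul_atTop hc0)
  have h2 : Tendsto (fun v : ℝ => Real.exp ((δ / 2) * v)) atTop atTop :=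
    Real.tendsto_exp_atTop.comp (tendsto_id.const_mul_atTop (by linarith))
  obtain ⟨v₀, hv₀⟩ := eventually_atTop.1 ((h1.eventually_ge_atTop (((max Y 2 : ℕ) : ℝ))).and
    ((h2.eventually_ge_atTop (8 * (A : ℝ))).and (eventually_ge_atTop (max 1 (4 / k)))))
  refine ⟨1 / max v₀ 1, by positivity, fun ε hε hε1 => ?_⟩
  set v : ℝ := 1 / ε with hv
  have hvv : v₀ ≤ v := by
    rw [hv, le_div_iff₀ hε]
    have h3 : 0 < max v₀ 1 := lt_max_of_lt_right one_pos
    rw [le_div_iff₀ h3] at hε1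
    calc v₀ * ε ≤ max v₀ 1 * ε := mul_le_mul_of_nonneg_right (le_max_left _ _) hε.le
      _ ≤ 1 := by linarith
  obtain ⟨h3, h4, h5⟩ := hv₀ v hvv
  have hv1 : 1 ≤ v := (le_max_left _ _).trans h5
  have hvk : 1 ≤ k / 4 * v := by
    have := (le_max_right _ _).trans h5
    rw [div_le_iff₀ hk0] at this
    linarith
  have hεv : ε * v = 1 := by rw [hv]; field_simp
  set y : ℕ := ⌈Real.exp (c * v)⌉₊ with hy
  have hy1 : Real.exp (c * v) ≤ y := Nat.le_ceil _
  have hy2 : (y : ℝ) < Real.exp (c * v) + 1 := Nat.ceil_lt_add_one (Real.exp_pos _).le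
  have hy3 : max Y 2 ≤ y := by exact_mod_cast h3.trans hy1
  have hy2' : 2 ≤ y := (le_max_right _ _).trans hy3
  have hyR : (2 : ℝ) ≤ y := by exact_mod_cast hy2'
  have hlogy : c * v ≤ Real.log y := by
    rw [← Real.log_exp (c * v)]
    exact Real.log_le_log (Real.exp_pos _) hy1
  have hlogy0 : 0 < Real.log y := Real.log_pos (by linarith)
  have hMP : (g - g * τ) * Real.log y ≤ MP y := by
    have := hY y ((le_max_left _ _).trans hy3)
    rw [lt_div_iff₀ hlogy0] at this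
    exact this.le
  set n : ℕ := nn A y with hn
  have hn2 : 2 ≤ n := by
    have h2P : 2 ∈ (Icc 1 y).filter Nat.Prime := by
      rw [Finset.mem_filter, Finset.mem_Icc]
      exact ⟨⟨by norm_num, hy2'⟩, Nat.prime_two⟩
    have hpos : 0 < n := Finset.prod_pos fun p hp => pow_pos (Finset.mem_filter.1 hp).2.pos _
    have hdvd : 2 ^ A ∣ n := Finset.dvd_prod_of_mem (fun p => p ^ A) h2P
    have h22 : 2 ∣ 2 ^ A := dvd_pow_self 2 (by omega)
    exact Nat.le_of_dvd hpos (h22.trans hdvd)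
  have hnR : (2 : ℝ) ≤ n := by exact_mod_cast hn2
  have hn0 : (0 : ℝ) < n := by linarith
  set σ : ℕ := ∑ d ∈ n.divisors, d with hσ
  have hratio : (1 + k / 4) * v ≤ (σ : ℝ) / n := by
    refine le_trans ?_ (ratio_ge A hA1 y)
    have e1 : (g - g * τ) * (c * v) ≤ MP y := by
      refine le_trans (mul_le_mul_of_nonneg_left hlogy ?_) hMP
      have : g * τ ≤ g := by nlinarith
      linarith
    have e2 : 1 - τ ≤ 1 - C2 / 2 ^ (A - 1) := by linarith
    have e3 : 0 ≤ 1 - τ := by linarith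
    have e4 : (g - g * τ) * (c * v) * (1 - τ) ≤ MP y * (1 - C2 / 2 ^ (A - 1)) :=
      mul_le_mul e1 e2 e3 (MP_nonneg y)
    refine le_trans ?_ e4
    have e5 : (g - g * τ) * (c * v) * (1 - τ) = (g * c) * (1 - τ) ^ 2 * v := by ring
    rw [e5, hgc]
    refine mul_le_mul_of_nonneg_right ?_ (by linarith)
    nlinarith
  have hσn : n < σ := by
    have : v ≤ (σ : ℝ) / n := by nlinarith
    rw [le_div_iff₀ hn0] at this
    by_contra h6
    push Not at h6
    have h7 : σ = n + ∑ d ∈ n.properDivisors, d := by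
      rw [hσ, Nat.sum_divisors_eq_sum_properDivisors_add_self, add_comm]
    have h8 : 1 ≤ ∑ d ∈ n.properDivisors, d := by
      have : 1 ∈ n.properDivisors := Nat.mem_properDivisors.2 ⟨one_dvd _, by omega⟩
      exact Finset.single_le_sum (f := fun d => d) (fun _ _ => Nat.zero_le _) this
    omega
  set N : ℕ := σ - 1 with hN
  have hNσ : (N : ℝ) = σ - 1 := by
    rw [hN, Nat.cast_sub (by omega)]; norm_num
  have hND : N ∈ D n := by
    refine ⟨n, Nat.mem_divisors_self n (by omega), by omega, ?_⟩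
    have h6 : n.divisors = insert 1 (n.divisors.filter (fun d => 1 < d ∧ d ≤ n)) := by
      ext d
      simp only [Finset.mem_filter, Finset.mem_insert, Nat.mem_divisors]
      constructor
      · rintro ⟨h7, h8⟩
        have h9 : 0 < d := Nat.pos_of_dvd_of_pos h7 (by omega)
        by_cases h10 : d = 1
        · exact Or.inl h10
        · exact Or.inr ⟨⟨h7, h8⟩, by omega, Nat.le_of_dvd (by omega) h7⟩
      · rintro (h7 | ⟨h7, _⟩)
        · subst h7; exact ⟨one_dvd _, by omega⟩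
        · exact h7
    have h7 : σ = 1 + ∑ d ∈ n.divisors.filter (fun d => 1 < d ∧ d ≤ n), d := by
      rw [hσ]
      conv_lhs => rw [h6]
      rw [Finset.sum_insert (by simp)]
    omega
  have hrep : Representable N := ⟨n, hND⟩
  have hfN : f N ≤ n := Nat.sInf_le hND
  have hNpos : 0 < N := by omega
  have hnN : (n : ℝ) ≤ ε * N := by
    have h6 : v ≤ (N : ℝ) / n := by
      have : (N : ℝ) / n = (σ : ℝ) / n - 1 / n := by rw [hNσ]; ring
      rw [this]
      have h7 : 1 / (n : ℝ) ≤ 1 := by rw [div_le_one hn0]; linarith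
      nlinarith
    rw [le_div_iff₀ hn0] at h6
    calc (n : ℝ) = ε * (v * n) := by rw [← mul_assoc, hεv, one_mul]
      _ ≤ ε * N := mul_le_mul_of_nonneg_left h6 hε.le
  refine ⟨N, hNpos, ?_⟩
  have hcount : (1 : ℝ) ≤ count ε N := by
    have hmem : N ∈ {M : ℕ | 1 ≤ M ∧ M ≤ N ∧ Representable M ∧ (f M : ℝ) ≤ ε * M} := by
      refine ⟨hNpos, le_rfl, hrep, ?_⟩
      have : (f N : ℝ) ≤ n := by exact_mod_cast hfN
      exact this.trans hnN
    have hfin : {M : ℕ | 1 ≤ M ∧ M ≤ N ∧ Representable M ∧ (f M : ℝ) ≤ ε * M}.Finite :=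
      (Set.finite_Icc 1 N).subset fun M hM => ⟨hM.1, hM.2.1⟩
    have : 0 < count ε N := (Set.ncard_pos hfin).2 ⟨N, hmem⟩
    exact_mod_cast this
  refine le_trans ?_ hcount
  have hNR : (0 : ℝ) < N := by exact_mod_cast hNpos
  -- the size of `N`
  have hlogN : Real.log N ≤ Real.exp ((g⁻¹ + δ) / ε) := by
    have h6 : (N : ℝ) ≤ (n : ℝ) ^ 2 := by
      have h7 : σ ≤ n * n := by
        rw [hσ]
        calc ∑ d ∈ n.divisors, d ≤ ∑ _d ∈ n.divisors, n :=
              Finset.sum_le_sum fun d hd => Nat.divisor_le hd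
          _ = n.divisors.card * n := by rw [Finset.sum_const, smul_eq_mul]
          _ ≤ n * n := Nat.mul_le_mul_right _ (Nat.card_divisors_le_self n)
      have h8 : N ≤ n * n := by omega
      rw [pow_two]
      exact_mod_cast h8
    have h7 : Real.log N ≤ 2 * Real.log n := by
      calc Real.log N ≤ Real.log ((n : ℝ) ^ 2) := Real.log_le_log hNR h6
        _ = _ := by rw [Real.log_pow]; norm_num
    have h8 := log_nn_le A y
    have h9 : 1 ≤ Real.exp (c * v) := Real.one_le_exp (by positivity)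
    have h10 : Real.exp ((g⁻¹ + δ) / ε) = Real.exp (c * v) * Real.exp ((δ / 2) * v) := by
      rw [← Real.exp_add]; congr 1
      rw [hc, hv]; ring
    rw [h10]
    calc Real.log N ≤ 2 * (A * (y * 2)) := by linarith
      _ = 4 * A * y := by ring
      _ ≤ 4 * A * (2 * Real.exp (c * v)) := by
          refine mul_le_mul_of_nonneg_left (by linarith) (by positivity)
      _ = Real.exp (c * v) * (8 * A) := by ring
      _ ≤ _ := mul_le_mul_of_nonneg_left h4 (Real.exp_pos _).le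
  calc (N : ℝ) * Real.exp (-Real.exp ((g⁻¹ + δ) / ε)) ≤ N * Real.exp (-Real.log N) := by
        refine mul_le_mul_of_nonneg_left (Real.exp_le_exp.2 (neg_le_neg hlogN)) hNR.le
    _ = 1 := by rw [Real.exp_neg, Real.exp_log hNR]; field_simp

end Pool.Agent.KS6_57.DS
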